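import Mathlib

set_option autoImplicit false

/-!
A Hadamard difference set whose development does not embed into a projective plane as a set of
maximal arcs.
-/

namespace Pool.Agent.Results.MP_82bed6_co.NonEmbeddable

open Configuration

/-- `M` is a Hadamard difference set of order `2 ^ (2 b - 2)` in the abelian group `G` (written
additively) of order `2 ^ (2 b)`: it has `2 ^ (2 b - 1) - 2 ^ (b - 1)` elements and every nonzero
`g` has exactly `2 ^ (2 b - 2) - 2 ^ (b - 1)` representations `g = m - m'` with `m, m' ∈ M`. -/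
def IsHadamardDifferenceSet {G : Type*} [AddCommGroup G] (b : ℕ) (M : Set G) : Prop :=
  Nat.card G = 2 ^ (2 * b) ∧ M.ncard = 2 ^ (2 * b - 1) - 2 ^ (b - 1) ∧
    ∀ g : G, g ≠ 0 → {p : G × G | p.1 ∈ M ∧ p.2 ∈ M ∧ p.1 - p.2 = g}.ncard =
      2 ^ (2 * b - 2) - 2 ^ (b - 1)

/-- `A` is a maximal arc of degree `d`: it has points on every line in the number `0` or `d`. -/
def IsMaximalArc {P : Type*} (L : Type*) [Membership P L] (d : ℕ) (A : Set P) : Prop :=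
  ∀ l : L, {p : P | p ∈ A ∧ p ∈ l}.ncard = 0 ∨ {p : P | p ∈ A ∧ p ∈ l}.ncard = d

/-- The development of `M` embeds into the plane with points `P` and lines `L` as a set of maximal
arcs of degree `d`: for some injective `φ : G → P` all the sets `φ (M + g)` are maximal arcs. -/
def Embeds {G : Type*} [AddCommGroup G] (M : Set G) (P L : Type*) [Membership P L] (d : ℕ) :
    Prop :=
  ∃ φ : G → P, Function.Injective φ ∧
    ∀ g : G, IsMaximalArc L d (φ '' ((fun m => m + g) '' M))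

/-- The difference set. -/
def M₀ : Finset (ZMod 8 × ZMod 2) := {(0, 0), (0, 1), (1, 0), (2, 0), (5, 1), (6, 0)}

theorem sum_M₀ (f : ZMod 8 × ZMod 2 → ℕ) : ∑ m ∈ M₀, f m =
    f (0, 0) + (f (0, 1) + (f (1, 0) + (f (2, 0) + (f (5, 1) + f (6, 0))))) := by
  rw [M₀, Finset.sum_insert (by decide), Finset.sum_insert (by decide),
    Finset.sum_insert (by decide), Finset.sum_insert (by decide), Finset.sum_insert (by decide),
    Finset.sum_singleton]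

theorem difference₀ : IsHadamardDifferenceSet 2 (M₀ : Set (ZMod 8 × ZMod 2)) := by
  refine ⟨by simp [Nat.card_eq_fintype_card], ?_, ?_⟩
  · rw [Set.ncard_coe_finset]; decide
  · intro g hg
    have h : {p : (ZMod 8 × ZMod 2) × (ZMod 8 × ZMod 2) | p.1 ∈ (M₀ : Set (ZMod 8 × ZMod 2)) ∧
        p.2 ∈ (M₀ : Set (ZMod 8 × ZMod 2)) ∧ p.1 - p.2 = g} =
        (((M₀ ×ˢ M₀).filter fun p => p.1 - p.2 = g : Finset _) : Set _) := by
      ext p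
      simp [and_assoc]
    rw [h, Set.ncard_coe_finset]
    have key : ∀ g : ZMod 8 × ZMod 2, g ≠ 0 →
        ((M₀ ×ˢ M₀).filter fun p => p.1 - p.2 = g).card = 2 := by decide +kernel
    rw [key g hg]
    norm_num

/-- The answer is negative: for `b = 2` some Hadamard difference set in an abelian group of order
`16` has a development that does not embed, as a set of maximal arcs of degree `2`, into any
projective plane of order `4`. -/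
theorem result : ∃ (b : ℕ) (G : Type) (_ : AddCommGroup G) (M : Set G), 1 ≤ b ∧
    IsHadamardDifferenceSet b M ∧
    ∀ (P L : Type) [Membership P L] [Fintype P] [Fintype L] [ProjectivePlane P L],
      ProjectivePlane.order P L = 2 ^ b → ¬ Embeds M P L (2 ^ (b - 1)) := by
  refine ⟨2, ZMod 8 × ZMod 2, inferInstance, (M₀ : Set (ZMod 8 × ZMod 2)), by norm_num,
    difference₀, ?_⟩
  intro P L _ _ _ _ _ ⟨φ, hφ, harc⟩
  classical
  -- the indicator of a line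
  let χ : L → ZMod 8 × ZMod 2 → ℕ := fun l z => if φ z ∈ l then 1 else 0
  have key : ∀ l g, (∑ m ∈ M₀, χ l (m + g)) = 0 ∨ (∑ m ∈ M₀, χ l (m + g)) = 2 := by
    intro l g
    have h1 : {p : P | p ∈ φ '' ((fun m => m + g) '' (M₀ : Set (ZMod 8 × ZMod 2))) ∧ p ∈ l} =
        (((M₀.filter fun m => φ (m + g) ∈ l).image fun m => φ (m + g) : Finset P) : Set P) := by
      ext p
      simp only [Set.mem_image, Finset.mem_coe, Finset.coe_image, Finset.coe_filter,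
        Set.mem_ofPred_eq]
      constructor
      · rintro ⟨⟨x, ⟨m, hm, rfl⟩, rfl⟩, hp⟩
        exact ⟨m, ⟨hm, hp⟩, rfl⟩
      · rintro ⟨m, ⟨hm, hp⟩, rfl⟩
        exact ⟨⟨m + g, ⟨m, hm, rfl⟩, rfl⟩, hp⟩
    have h2 := harc g l
    rw [h1, Set.ncard_coe_finset, Finset.card_image_of_injective _
      (fun a b h => add_right_cancel (hφ h)), Finset.card_filter] at h2
    exact h2
  have hle : ∀ l z, χ l z ≤ 1 := by
    intro l z
    simp only [χ]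
    split_ifs <;> omega
  have key2 : ∀ l g, χ l ((0, 0) + g) + (χ l ((0, 1) + g) + (χ l ((1, 0) + g) +
      (χ l ((2, 0) + g) + (χ l ((5, 1) + g) + χ l ((6, 0) + g))))) = 0 ∨
      χ l ((0, 0) + g) + (χ l ((0, 1) + g) + (χ l ((1, 0) + g) +
      (χ l ((2, 0) + g) + (χ l ((5, 1) + g) + χ l ((6, 0) + g))))) = 2 := by
    intro l g
    have := key l g
    rwa [sum_M₀ (fun m => χ l (m + g))] at this
  have hone : ∀ l z, φ z ∈ l → χ l z = 1 := by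
    intro l z h
    simp only [χ, if_pos h]
  have hmem : ∀ l z, χ l z = 1 → φ z ∈ l := by
    intro l z h
    by_contra hn
    simp only [χ, if_neg hn] at h
    omega
  -- the two lines
  have hne1 : φ (0, 0) ≠ φ (1, 0) := fun h => by
    have := hφ h
    revert this; decide
  have hne2 : φ (0, 0) ≠ φ (5, 0) := fun h => by
    have := hφ h
    revert this; decide
  have hne3 : φ (0, 0) ≠ φ (4, 0) := fun h => by
    have := hφ h
    revert this; decide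
  obtain ⟨l₁, ⟨h10, h11⟩, -⟩ := HasLines.existsUnique_line P L _ _ hne1
  obtain ⟨l₂, ⟨h20, h21⟩, -⟩ := HasLines.existsUnique_line P L _ _ hne2
  have a0 := hone _ _ h10
  have a1 := hone _ _ h11
  have b0 := hone _ _ h20
  have b1 := hone _ _ h21
  have e1 : χ l₁ (4, 0) = 1 ∧ χ l₁ (5, 0) = 0 := by
    have k1 : χ l₁ (0, 0) + (χ l₁ (0, 1) + (χ l₁ (1, 0) + (χ l₁ (2, 0) + (χ l₁ (5, 1) + (χ l₁ (6, 0)))))) = 0 ∨
        χ l₁ (0, 0) + (χ l₁ (0, 1) + (χ l₁ (1, 0) + (χ l₁ (2, 0) + (χ l₁ (5, 1) + (χ l₁ (6, 0)))))) = 2 := key2 l₁ (0, 0)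
    have k2 : χ l₁ (7, 0) + (χ l₁ (7, 1) + (χ l₁ (0, 0) + (χ l₁ (1, 0) + (χ l₁ (4, 1) + (χ l₁ (5, 0)))))) = 0 ∨
        χ l₁ (7, 0) + (χ l₁ (7, 1) + (χ l₁ (0, 0) + (χ l₁ (1, 0) + (χ l₁ (4, 1) + (χ l₁ (5, 0)))))) = 2 := key2 l₁ (7, 0)
    have k3 : χ l₁ (0, 1) + (χ l₁ (0, 0) + (χ l₁ (1, 1) + (χ l₁ (2, 1) + (χ l₁ (5, 0) + (χ l₁ (6, 1)))))) = 0 ∨
        χ l₁ (0, 1) + (χ l₁ (0, 0) + (χ l₁ (1, 1) + (χ l₁ (2, 1) + (χ l₁ (5, 0) + (χ l₁ (6, 1)))))) = 2 := key2 l₁ (0, 1)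
    have k4 : χ l₁ (1, 0) + (χ l₁ (1, 1) + (χ l₁ (2, 0) + (χ l₁ (3, 0) + (χ l₁ (6, 1) + (χ l₁ (7, 0)))))) = 0 ∨
        χ l₁ (1, 0) + (χ l₁ (1, 1) + (χ l₁ (2, 0) + (χ l₁ (3, 0) + (χ l₁ (6, 1) + (χ l₁ (7, 0)))))) = 2 := key2 l₁ (1, 0)
    have k5 : χ l₁ (2, 0) + (χ l₁ (2, 1) + (χ l₁ (3, 0) + (χ l₁ (4, 0) + (χ l₁ (7, 1) + (χ l₁ (0, 0)))))) = 0 ∨
        χ l₁ (2, 0) + (χ l₁ (2, 1) + (χ l₁ (3, 0) + (χ l₁ (4, 0) + (χ l₁ (7, 1) + (χ l₁ (0, 0)))))) = 2 := key2 l₁ (2, 0)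
    have b21 := hle l₁ (2, 1)
    have b40 := hle l₁ (4, 0)
    omega
  have e2 : χ l₂ (4, 0) = 1 := by
    have k1 : χ l₂ (0, 1) + (χ l₂ (0, 0) + (χ l₂ (1, 1) + (χ l₂ (2, 1) + (χ l₂ (5, 0) + (χ l₂ (6, 1)))))) = 0 ∨
        χ l₂ (0, 1) + (χ l₂ (0, 0) + (χ l₂ (1, 1) + (χ l₂ (2, 1) + (χ l₂ (5, 0) + (χ l₂ (6, 1)))))) = 2 := key2 l₂ (0, 1)
    have k2 : χ l₂ (7, 0) + (χ l₂ (7, 1) + (χ l₂ (0, 0) + (χ l₂ (1, 0) + (χ l₂ (4, 1) + (χ l₂ (5, 0)))))) = 0 ∨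
        χ l₂ (7, 0) + (χ l₂ (7, 1) + (χ l₂ (0, 0) + (χ l₂ (1, 0) + (χ l₂ (4, 1) + (χ l₂ (5, 0)))))) = 2 := key2 l₂ (7, 0)
    have k3 : χ l₂ (0, 0) + (χ l₂ (0, 1) + (χ l₂ (1, 0) + (χ l₂ (2, 0) + (χ l₂ (5, 1) + (χ l₂ (6, 0)))))) = 0 ∨
        χ l₂ (0, 0) + (χ l₂ (0, 1) + (χ l₂ (1, 0) + (χ l₂ (2, 0) + (χ l₂ (5, 1) + (χ l₂ (6, 0)))))) = 2 := key2 l₂ (0, 0)
    have k4 : χ l₂ (5, 0) + (χ l₂ (5, 1) + (χ l₂ (6, 0) + (χ l₂ (7, 0) + (χ l₂ (2, 1) + (χ l₂ (3, 0)))))) = 0 ∨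
        χ l₂ (5, 0) + (χ l₂ (5, 1) + (χ l₂ (6, 0) + (χ l₂ (7, 0) + (χ l₂ (2, 1) + (χ l₂ (3, 0)))))) = 2 := key2 l₂ (5, 0)
    have k5 : χ l₂ (2, 0) + (χ l₂ (2, 1) + (χ l₂ (3, 0) + (χ l₂ (4, 0) + (χ l₂ (7, 1) + (χ l₂ (0, 0)))))) = 0 ∨
        χ l₂ (2, 0) + (χ l₂ (2, 1) + (χ l₂ (3, 0) + (χ l₂ (4, 0) + (χ l₂ (7, 1) + (χ l₂ (0, 0)))))) = 2 := key2 l₂ (2, 0)
    have b20 := hle l₂ (2, 0)
    have b40 := hle l₂ (4, 0)
    omega
  have hl : l₁ = l₂ := by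
    obtain ⟨l, -, hu⟩ := HasLines.existsUnique_line P L _ _ hne3
    rw [hu l₁ ⟨h10, hmem _ _ e1.1⟩, hu l₂ ⟨h20, hmem _ _ e2⟩]
  rw [hl] at e1
  omega

end Pool.Agent.Results.MP_82bed6_co.NonEmbeddable
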